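import Pool.Agent.H8.AA.Box

/-!
# [H82 AF] THEOREM AA with fixed leading form: definitions

`f + R`: `f` the form with the coefficients `f j` at `x^(n-j) y^j`, `R` of degree `< n` with the coefficient vector `r : Ix (n-1) → ℤ`.
-/

set_option autoImplicit false

namespace Pool.Agent.H82.AF

open Finset Polynomial Pool.Agent.H8.AA

/-- the array of `f + R` -/
def jn (n : ℕ) (f : ℕ → ℤ) (r : Ix (n - 1) → ℤ) (a b : ℕ) : ℤ := if a + b = n then f b else co r a b

/-- the vector of `f + R` -/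
def jv (n : ℕ) (f : ℕ → ℤ) (r : Ix (n - 1) → ℤ) : Ix n → ℤ := fun p => jn n f r p.1.1.val p.1.2.val

theorem co_jv (n : ℕ) (hn : 1 ≤ n) (f : ℕ → ℤ) (r : Ix (n - 1) → ℤ) : co (jv n f r) = jn n f r := by
  funext a b
  by_cases h : a + b ≤ n
  · rw [co_of_le _ h]
    rfl
  · unfold jn co
    rw [dif_neg h, if_neg (by omega), dif_neg (by omega)]

theorem jn_top (n : ℕ) (f : ℕ → ℤ) (r : Ix (n - 1) → ℤ) {j : ℕ} (hj : j ≤ n) : jn n f r (n - j) j = f j := by
  unfold jn
  rw [if_pos (by omega)]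

theorem jn_low (n : ℕ) (f : ℕ → ℤ) (r : Ix (n - 1) → ℤ) {a b : ℕ} (h : a + b < n) :
    jn n f r a b = r (ix a b (by omega)) := by
  unfold jn
  rw [if_neg (by omega), co_of_le _ (by omega)]

/-- the leading form does not depend on `r` -/
theorem fm_jn (n : ℕ) (f : ℕ → ℤ) (r r' : Ix (n - 1) → ℤ) : fm (jn n f r) n = fm (jn n f r') n := by
  unfold fm
  refine Finset.sum_congr rfl fun j hj => ?_
  have hj' : j ≤ n := by
    have := Finset.mem_range.1 hj
    omega
  rw [jn_top n f r hj', jn_top n f r' hj']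

end Pool.Agent.H82.AF
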