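import Pool.Agent.H82.AF.Str
import Pool.Agent.H42.AA.Half3
import Pool.Agent.H8.AA.Med

/-!
# [H82 AF MED] the middle range, fixed leading form

As `H42/AA/Half2`, `Half3`, with windows `X/(K H^(2/3))`.
-/

set_option autoImplicit false

namespace Pool.Agent.H82.AF

open Finset Polynomial Pool.Agent.H8.AA Pool.Agent.H42.AA

/-- points of one class are collinear -/
theorem fib_card2 (n : ℕ) (hn : 3 ≤ n) (B A : ℝ) (hB : 1 ≤ B) (hA : 1 ≤ A) : ∃ K : ℝ, 1 ≤ K ∧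
    ∀ (e : ℕ → ℕ → ℤ) (H : ℕ), B ≤ H → (∀ j ≤ n, |(e (n - j) j : ℝ)| ≤ B) →
    Bd n H e → Ir n e → Gd n (B / A) e → ∀ S : Finset (ℤ × ℤ),
    (∀ P ∈ S, |ev n e P.1 P.2| ≤ (H : ℤ) ∧ |P.2| ≤ |P.1| ∧ (2 * K + (n + 1) ^ 2 * A) * H ≤ (|P.1| : ℤ)) →
    ∀ c, ((S.filter (fun P => kl n e (K * (H : ℝ) ^ (2 / 3 : ℝ)) P = c)).card : ℝ) ≤
      n * (2 * (H : ℝ) ^ (1 / (n : ℝ)) + 1) := by
  obtain ⟨K, hK, hstr⟩ := str2 n hn B A hB hA
  refine ⟨K, hK, ?_⟩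
  intro e H hH ht0 hb hI hG S hS c
  have hH' : (1 : ℝ) ≤ (H : ℝ) := hB.trans hH
  have hA0 : 0 < A := by linarith
  have hB0 : 0 < B := by linarith
  have hH23 : 1 ≤ (H : ℝ) ^ (2 / 3 : ℝ) := Real.one_le_rpow hH' (by norm_num)
  have hκ : 0 < K * (H : ℝ) ^ (2 / 3 : ℝ) := by positivity
  -- facts on single points
  have hpt : ∀ P ∈ S, P.1 ≠ 0 ∧ |ev n e P.1 P.2| ≤ (H : ℤ) ∧ |P.2| ≤ |P.1| ∧
      (2 * K + (n + 1) ^ 2 * A) * H ≤ |(P.1 : ℝ)| ∧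
      aeval ((P.2 : ℝ) / P.1) (derivative (fm e n)) ≠ 0 := by
    intro P hP
    obtain ⟨h1, h2, h3⟩ := hS P hP
    have h3' : (2 * K + ((n : ℝ) + 1) ^ 2 * A) * H ≤ |(P.1 : ℝ)| := by
      rw [Int.cast_abs] at h3
      exact h3
    have hpos : 0 < (2 * K + ((n : ℝ) + 1) ^ 2 * A) * H := by positivity
    have hx0 : 0 < |(P.1 : ℝ)| := lt_of_lt_of_le hpos h3'
    have hx : P.1 ≠ 0 := by
      intro h4
      rw [h4] at hx0
      simp at hx0
    refine ⟨hx, h1, h2, h3', ?_⟩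
    have h4 := small_top (by omega : 1 ≤ n) hb hx h2 h1
    have h5 : ((n : ℝ) + 1) ^ 2 * H / |(P.1 : ℝ)| ≤ B / A := by
      rw [div_le_div_iff₀ hx0 hA0]
      have h6 : ((n : ℝ) + 1) ^ 2 * A * H ≤ |(P.1 : ℝ)| := by
        refine le_trans ?_ h3'
        have : 0 ≤ 2 * K * (H : ℝ) := by positivity
        nlinarith
      calc ((n : ℝ) + 1) ^ 2 * H * A = ((n : ℝ) + 1) ^ 2 * A * H := by ring
        _ ≤ |(P.1 : ℝ)| := h6
        _ ≤ B * |(P.1 : ℝ)| := by nlinarith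
    have ht : |((P.2 : ℝ) / P.1)| ≤ 1 := by
      rw [abs_div, div_le_one hx0]
      exact_mod_cast h2
    rcases hG _ ht with h6 | h6
    · exact absurd h6 (not_lt.2 (h4.trans h5))
    · intro h7
      rw [h7, abs_zero] at h6
      have : (0 : ℝ) ≤ B / A := by positivity
      linarith
  refine cls n (by omega) e hI H hH' _ ?_ ?_
  · -- collinear
    intro P hP Q hQ R hR
    rw [Finset.mem_filter] at hP hQ hR
    have hPQR : ∀ i : Fin 3, (![P, Q, R] i) ∈ S ∧ kl n e (K * (H : ℝ) ^ (2 / 3 : ℝ)) (![P, Q, R] i) = c := by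
      intro i
      fin_cases i
      · exact hP
      · exact hQ
      · exact hR
    have hk : ∀ i j : Fin 3, kl n e (K * (H : ℝ) ^ (2 / 3 : ℝ)) (![P, Q, R] i) =
        kl n e (K * (H : ℝ) ^ (2 / 3 : ℝ)) (![P, Q, R] j) :=
      fun i j => (hPQR i).2.trans (hPQR j).2.symm
    have hsc : ∀ i : Fin 3, sc (![P, Q, R] i).1 = sc P.1 := fun i => by
      have h1 := congrArg (fun z : Bool × ℕ × ℕ × ℕ => z.2.1) (hk i 0)
      exact h1
    have key := hstr e H ((2 : ℝ) ^ sc P.1) hH ht0 hb hG ?_ (fun i => (![P, Q, R] i).1)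
      (fun i => (![P, Q, R] i).2) ?_ ?_ ?_
    · exact key
    · -- K H <= X
      have h1 := (hpt P hP.1).2.2.2.1
      have h2 := lt_sc P.1
      have h3 : (2 * K) * H ≤ (2 * K + ((n : ℝ) + 1) ^ 2 * A) * H :=
        mul_le_mul_of_nonneg_right (by
          have : (0 : ℝ) ≤ ((n : ℝ) + 1) ^ 2 * A := by positivity
          linarith) (by positivity)
      linarith
    · intro i
      obtain ⟨h1, h2, h3, h4, h5⟩ := hpt _ (hPQR i).1
      refine ⟨?_, ?_, h3, h2⟩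
      · have := sc_le h1
        rw [hsc i] at this
        exact this
      · have := lt_sc (![P, Q, R] i).1
        rw [hsc i] at this
        exact this.le
    · intro i j
      have h0 : 0 < (![P, Q, R] i).1 * (![P, Q, R] j).1 :=
        sign_of_kl (hpt _ (hPQR i).1).1 (hpt _ (hPQR j).1).1
          (congrArg (fun z : Bool × ℕ × ℕ × ℕ => z.1) (hk i j))
      have h0' : (0 : ℝ) < ((![P, Q, R] i).1 : ℝ) * ((![P, Q, R] j).1 : ℝ) := by exact_mod_cast h0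
      show |((![P, Q, R] i).1 : ℝ) - ((![P, Q, R] j).1 : ℝ)| ≤ (2 : ℝ) ^ sc P.1 / (K * (H : ℝ) ^ (2 / 3 : ℝ))
      rw [abs_sub_of_pos h0']
      have h1 := wi_close hκ (hpt _ (hPQR i).1).1 (hpt _ (hPQR j).1).1
        ((hsc i).trans (hsc j).symm) (congrArg (fun z : Bool × ℕ × ℕ × ℕ => z.2.2.1) (hk i j))
      rw [hsc i] at h1
      exact h1
    · intro i j s hs
      have hc : cb n e (((![P, Q, R] i).2 : ℝ) / (![P, Q, R] i).1) =
          cb n e (((![P, Q, R] j).2 : ℝ) / (![P, Q, R] j).1) :=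
        congrArg (fun z : Bool × ℕ × ℕ × ℕ => z.2.2.2) (hk i j)
      rw [Set.mem_uIcc] at hs
      rcases hs with ⟨h1, h2⟩ | ⟨h1, h2⟩
      · rcases h2.lt_or_eq with h3 | h3
        · exact no_crit (by omega) hI.1 h1 h3 hc
        · rw [h3]
          exact (hpt _ (hPQR j).1).2.2.2.2
      · rcases h2.lt_or_eq with h3 | h3
        · exact no_crit (by omega) hI.1 h1 h3 hc.symm
        · rw [h3]
          exact (hpt _ (hPQR i).1).2.2.2.2
  · intro P hP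
    rw [Finset.mem_filter] at hP
    have h1 := (hpt P hP.1).2.1
    exact_mod_cast h1

theorem half2 (n : ℕ) (hn : 3 ≤ n) (E : ℕ) (B A : ℝ) (hB : 1 ≤ B) (hA : 1 ≤ A) : ∃ C K : ℝ, 0 ≤ C ∧ 1 ≤ K ∧
    ∀ (e : ℕ → ℕ → ℤ) (H : ℕ), B ≤ H → (∀ j ≤ n, |(e (n - j) j : ℝ)| ≤ B) →
    Bd n H e → Ir n e → Gd n (B / A) e → ∀ S : Finset (ℤ × ℤ),
    (∀ P ∈ S, |ev n e P.1 P.2| ≤ (H : ℤ) ∧ |P.2| ≤ |P.1| ∧ K * H ≤ (|P.1| : ℤ) ∧ |P.1| ≤ (H : ℤ) ^ E) →
    (S.card : ℝ) ≤ C * ((H : ℝ) ^ (2 / 3 : ℝ) * (H : ℝ) ^ (1 / (n : ℝ))) * (1 + Real.log H) := by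
  obtain ⟨K, hK, hf⟩ := fib_card2 n hn B A hB hA
  refine ⟨12 * (2 * E + 1) * K * n ^ 2, 2 * K + (n + 1) ^ 2 * A, by positivity, ?_, ?_⟩
  · have : 0 ≤ ((n : ℝ) + 1) ^ 2 * A := by positivity
    linarith
  intro e H hH ht0 hb hI hG S hS
  have hH' : (1 : ℝ) ≤ (H : ℝ) := hB.trans hH
  have hlog : 0 ≤ Real.log H := Real.log_nonneg hH'
  have hfib := hf e H hH ht0 hb hI hG S fun P hP => ⟨(hS P hP).1, (hS P hP).2.1, (hS P hP).2.2.1⟩
  obtain ⟨M, hM⟩ : ∃ M : ℝ, M = (n : ℝ) * (2 * (H : ℝ) ^ (1 / (n : ℝ)) + 1) := ⟨_, rfl⟩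
  obtain ⟨Q, hQ⟩ : ∃ Q : ℝ, Q = (H : ℝ) ^ (2 / 3 : ℝ) := ⟨_, rfl⟩
  rw [← hM, ← hQ] at hfib
  rw [← hQ]
  have hQ1 : 1 ≤ Q := by rw [hQ]; exact Real.one_le_rpow hH' (by norm_num)
  -- the set of classes
  obtain ⟨T, hT⟩ : ∃ T : Finset (Bool × ℕ × ℕ × ℕ), T =
    (Finset.univ : Finset Bool) ×ˢ (range (⌊2 * (E : ℝ) * Real.log H⌋₊ + 1) ×ˢ
      (range (⌊K * Q⌋₊ + 1) ×ˢ range n)) := ⟨_, rfl⟩
  have hmaps : ∀ P ∈ S, kl n e (K * Q) P ∈ T := by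
    intro P hP
    obtain ⟨h1, h2, h3, h4⟩ := hS P hP
    have h3' : (2 * K + ((n : ℝ) + 1) ^ 2 * A) * H ≤ |(P.1 : ℝ)| := by
      rw [Int.cast_abs] at h3
      exact h3
    have hpos : 0 < (2 * K + ((n : ℝ) + 1) ^ 2 * A) * H := by positivity
    have hx0 : 0 < |(P.1 : ℝ)| := lt_of_lt_of_le hpos h3'
    have hx : P.1 ≠ 0 := by
      intro h5
      rw [h5] at hx0
      simp at hx0
    have h5 := sc_le hx
    have h6 := lt_sc P.1
    rw [hT]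
    simp only [Finset.mem_product, Finset.mem_univ, true_and, kl, Finset.mem_range]
    refine ⟨?_, ?_, cb_lt (by omega) e _⟩
    · -- the scale
      rw [Nat.lt_succ_iff]
      apply Nat.le_floor
      have h7 : |(P.1 : ℝ)| ≤ (H : ℝ) ^ E := by exact_mod_cast h4
      have h8 : (2 : ℝ) ^ sc P.1 ≤ (H : ℝ) ^ E := h5.trans h7
      have h9 : (sc P.1 : ℝ) * Real.log 2 ≤ E * Real.log H := by
        have h10 := Real.log_le_log (by positivity) h8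
        rw [Real.log_pow, Real.log_pow] at h10
        exact h10
      have h11 : (1 : ℝ) / 2 ≤ Real.log 2 := by
        have := Real.log_two_gt_d9
        linarith
      have h12 : (0 : ℝ) ≤ (sc P.1 : ℝ) := Nat.cast_nonneg _
      nlinarith
    · -- the window
      rw [Nat.lt_succ_iff]
      unfold wi
      apply Nat.floor_le_floor
      have hX0 : (0 : ℝ) < 2 ^ sc P.1 := by positivity
      rw [div_le_iff₀ hX0]
      have h7 : |(P.1 : ℝ)| - 2 ^ sc P.1 ≤ 2 ^ sc P.1 := by linarith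
      calc (|(P.1 : ℝ)| - 2 ^ sc P.1) * (K * Q) ≤ 2 ^ sc P.1 * (K * Q) :=
            mul_le_mul_of_nonneg_right h7 (by positivity)
        _ = K * Q * 2 ^ sc P.1 := by ring
  have hcard : (S.card : ℝ) ≤ T.card * M := by
    rw [Finset.card_eq_sum_card_fiberwise hmaps]
    push_cast
    calc ∑ c ∈ T, ((S.filter (fun P => kl n e (K * Q) P = c)).card : ℝ) ≤ ∑ c ∈ T, M :=
          Finset.sum_le_sum fun c _ => hfib c
      _ = T.card * M := by rw [Finset.sum_const, nsmul_eq_mul]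
  have hTc : (T.card : ℝ) = 2 * ((⌊2 * (E : ℝ) * Real.log H⌋₊ + 1 : ℕ) * ((⌊K * Q⌋₊ + 1 : ℕ) * n)) := by
    rw [hT, Finset.card_product, Finset.card_product, Finset.card_product, Finset.card_range,
      Finset.card_range, Finset.card_range, Finset.card_univ, Fintype.card_bool]
    push_cast
    ring
  have hEnn : (0 : ℝ) ≤ (E : ℝ) := Nat.cast_nonneg _
  have hb1 : ((⌊2 * (E : ℝ) * Real.log H⌋₊ + 1 : ℕ) : ℝ) ≤ (2 * E + 1) * (1 + Real.log H) := by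
    have h1 := Nat.floor_le (show (0 : ℝ) ≤ 2 * (E : ℝ) * Real.log H by positivity)
    push_cast
    nlinarith
  have hb2 : ((⌊K * Q⌋₊ + 1 : ℕ) : ℝ) ≤ 2 * K * Q := by
    have h1 := Nat.floor_le (show (0 : ℝ) ≤ K * Q by positivity)
    push_cast
    nlinarith
  have hHn : (1 : ℝ) ≤ (H : ℝ) ^ (1 / (n : ℝ)) := Real.one_le_rpow hH' (by positivity)
  have hb3 : M ≤ 3 * n * (H : ℝ) ^ (1 / (n : ℝ)) := by
    rw [hM]
    have hn0 : (0 : ℝ) ≤ n := Nat.cast_nonneg _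
    nlinarith
  have hM0 : 0 ≤ M := by
    rw [hM]
    positivity
  have hn0 : (0 : ℝ) ≤ n := Nat.cast_nonneg _
  calc (S.card : ℝ) ≤ T.card * M := hcard
    _ = (2 * ((⌊2 * (E : ℝ) * Real.log H⌋₊ + 1 : ℕ) * ((⌊K * Q⌋₊ + 1 : ℕ) * n))) * M := by rw [hTc]
    _ ≤ (2 * (((2 * E + 1) * (1 + Real.log H)) * ((2 * K * Q) * n))) *
          (3 * n * (H : ℝ) ^ (1 / (n : ℝ))) := by
        apply mul_le_mul _ hb3 hM0 (by positivity)
        apply mul_le_mul_of_nonneg_left _ (by norm_num)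
        apply mul_le_mul hb1 _ (by positivity) (by positivity)
        exact mul_le_mul_of_nonneg_right hb2 hn0
    _ = 12 * (2 * E + 1) * K * n ^ 2 * (Q * (H : ℝ) ^ (1 / (n : ℝ))) * (1 + Real.log H) := by ring

/-- both charts -/
theorem med2 (n : ℕ) (hn : 3 ≤ n) (E : ℕ) (B A : ℝ) (hB : 1 ≤ B) (hA : 1 ≤ A) : ∃ C K : ℝ, 0 ≤ C ∧ 1 ≤ K ∧
    ∀ (e : ℕ → ℕ → ℤ) (H : ℕ), B ≤ H → (∀ j ≤ n, |(e (n - j) j : ℝ)| ≤ B) →
    Bd n H e → Ir n e → Gd n (B / A) e → Gd n (B / A) (sw e) → ∀ S : Finset (ℤ × ℤ),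
    (∀ P ∈ S, |ev n e P.1 P.2| ≤ (H : ℤ) ∧ K * H ≤ (max |P.1| |P.2| : ℤ) ∧ max |P.1| |P.2| ≤ (H : ℤ) ^ E) →
    (S.card : ℝ) ≤ C * ((H : ℝ) ^ (2 / 3 : ℝ) * (H : ℝ) ^ (1 / (n : ℝ))) * (1 + Real.log H) := by
  obtain ⟨C, K, hC, hK, hh⟩ := half2 n hn E B A hB hA
  refine ⟨2 * C, K, by positivity, hK, ?_⟩
  intro e H hH ht0 hb hI hG hG' S hS
  have h1 := hh e H hH ht0 hb hI hG (S.filter fun P => |P.2| ≤ |P.1|) (by
    intro P hP
    rw [Finset.mem_filter] at hP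
    obtain ⟨h2, h3, h4⟩ := hS P hP.1
    rw [max_eq_left hP.2] at h3 h4
    exact ⟨h2, hP.2, h3, h4⟩)
  have hbs : Bd n H (sw e) := fun a b hab => hb b a (by omega)
  have hts : ∀ j ≤ n, |(sw e (n - j) j : ℝ)| ≤ B := by
    intro j hj
    have h2 := ht0 (n - j) (by omega)
    have h3 : n - (n - j) = j := by omega
    rw [h3] at h2
    exact h2
  have h2 := hh (sw e) H hH hts hbs (ir_sw n (by omega) e hI) hG'
    ((S.filter fun P => ¬ |P.2| ≤ |P.1|).image Prod.swap) (by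
    intro Q hQ
    rw [Finset.mem_image] at hQ
    obtain ⟨P, hP, rfl⟩ := hQ
    rw [Finset.mem_filter] at hP
    obtain ⟨h2, h3, h4⟩ := hS P hP.1
    have h5 : |P.1| ≤ |P.2| := (not_le.1 hP.2).le
    rw [max_eq_right h5] at h3 h4
    refine ⟨?_, h5, h3, h4⟩
    show |ev n (sw e) P.2 P.1| ≤ (H : ℤ)
    rw [ev_sw]
    exact h2)
  rw [Finset.card_image_of_injective _ Prod.swap_injective] at h2
  have h3 : S.card = (S.filter fun P => |P.2| ≤ |P.1|).card +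
      (S.filter fun P => ¬ |P.2| ≤ |P.1|).card :=
    (Finset.card_filter_add_card_filter_not _).symm
  rw [h3]
  push_cast
  linarith

end Pool.Agent.H82.AF
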