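import Pool.Agent.H8.AA.Def
import Pool.Agent.H82.AF.Thr

/-!
# [H82 AF STR] Three integer points near one branch at infinity are collinear: fixed leading form

The coefficients of degree `n` are at most `B`, the others at most `H`. With `u' = (H/B) u` all coefficients are at most `B`; `three'`.
The windows have the length `X/(K H^(2/3))`.
-/

set_option autoImplicit false

namespace Pool.Agent.H82.AF

open Polynomial Pool.Agent.H6.AB Pool.Agent.H8.AA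

/-- the coefficients of `Φ` -/
noncomputable def bb (n : ℕ) (e : ℕ → ℕ → ℤ) (k j : ℕ) : ℝ :=
  if k + j ≤ n then (e (n - k - j) j : ℝ) else 0

/-- the scaled coefficients -/
noncomputable def bs (n : ℕ) (e : ℕ → ℕ → ℤ) (q : ℝ) (k j : ℕ) : ℝ := bb n e k j * q ^ k

theorem bb_inner (n : ℕ) (e : ℕ → ℕ → ℤ) {k : ℕ} (hk : k ≤ n) (g : ℕ → ℝ) :
    ∑ j ∈ Finset.range (n + 1), bb n e k j * g j =
      ∑ j ∈ Finset.range (n - k + 1), (e (n - k - j) j : ℝ) * g j := by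
  symm
  apply Finset.sum_subset_zero_on_sdiff
  · intro j hj
    rw [Finset.mem_range] at hj ⊢
    omega
  · intro j hj
    rw [Finset.mem_sdiff, Finset.mem_range, Finset.mem_range] at hj
    have : ¬ k + j ≤ n := by omega
    rw [bb, if_neg this, zero_mul]
  · intro j hj
    rw [Finset.mem_range] at hj
    have : k + j ≤ n := by omega
    rw [bb, if_pos this]

theorem Ph_bb (n : ℕ) (e : ℕ → ℕ → ℤ) (u t : ℝ) :
    Ph n (bb n e) u t = ∑ k ∈ Finset.range (n + 1), u ^ (n - k) * aeval t (fm e k) := by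
  unfold Ph
  rw [← Finset.sum_range_reflect]
  apply Finset.sum_congr rfl
  intro k hk
  rw [Finset.mem_range] at hk
  have h1 : n + 1 - 1 - k = n - k := by omega
  have h2 : n - (n - k) = k := by omega
  rw [h1, bb_inner n e (by omega) (fun j => u ^ (n - k) * t ^ j), h2, fm_aeval, Finset.mul_sum]
  apply Finset.sum_congr rfl
  intro j _
  ring

theorem Ph_bs (n : ℕ) (e : ℕ → ℕ → ℤ) {q : ℝ} (hq : q ≠ 0) (u t : ℝ) :
    Ph n (bs n e q) (u / q) t = Ph n (bb n e) u t := by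
  unfold Ph bs
  refine Finset.sum_congr rfl fun k _ => Finset.sum_congr rfl fun j _ => ?_
  rw [div_pow]
  field_simp

theorem Ph_zero (n : ℕ) (e : ℕ → ℕ → ℤ) (q t : ℝ) : Ph n (bs n e q) 0 t = aeval t (fm e n) := by
  unfold Ph
  rw [Finset.sum_eq_single 0]
  · have h := bb_inner n e (Nat.zero_le n) (fun j => t ^ j)
    rw [fm_aeval]
    simp only [Nat.sub_zero] at h
    rw [← h]
    refine Finset.sum_congr rfl fun j _ => ?_
    unfold bs
    ring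
  · intro k _ hk
    apply Finset.sum_eq_zero
    intro j _
    rw [zero_pow hk]
    ring
  · intro h
    exact absurd (Finset.mem_range.2 (Nat.succ_pos n)) h

theorem Pht_zero (n : ℕ) (e : ℕ → ℕ → ℤ) (q t : ℝ) :
    Pht n (bs n e q) 0 t = aeval t (derivative (fm e n)) := by
  unfold Pht
  rw [Finset.sum_eq_single 0]
  · have h := bb_inner n e (Nat.zero_le n) (fun j => j * t ^ (j - 1))
    rw [fm_daeval]
    simp only [Nat.sub_zero] at h
    rw [← h]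
    refine Finset.sum_congr rfl fun j _ => ?_
    unfold bs
    ring
  · intro k _ hk
    apply Finset.sum_eq_zero
    intro j _
    rw [zero_pow hk]
    ring
  · intro h
    exact absurd (Finset.mem_range.2 (Nat.succ_pos n)) h

theorem str2 (n : ℕ) (hn : 3 ≤ n) (B A : ℝ) (hB : 1 ≤ B) (hA : 1 ≤ A) : ∃ K : ℝ, 1 ≤ K ∧
    ∀ (e : ℕ → ℕ → ℤ) (H : ℕ) (X : ℝ), B ≤ H → (∀ j ≤ n, |(e (n - j) j : ℝ)| ≤ B) →
    Bd n H e → Gd n (B / A) e → K * H ≤ X → ∀ x y : Fin 3 → ℤ,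
    (∀ i, X ≤ |(x i : ℝ)| ∧ |(x i : ℝ)| ≤ 2 * X ∧ |y i| ≤ |x i| ∧ |ev n e (x i) (y i)| ≤ (H : ℤ)) →
    (∀ i j, |(x i : ℝ) - x j| ≤ X / (K * (H : ℝ) ^ (2 / 3 : ℝ))) →
    (∀ i j, ∀ s ∈ Set.uIcc ((y i : ℝ) / x i) ((y j : ℝ) / x j), aeval s (derivative (fm e n)) ≠ 0) →
    (x 1 - x 0) * (y 2 - y 0) = (x 2 - x 0) * (y 1 - y 0) := by
  have hM4 : 4 ≤ cM n := by
    unfold cM
    have : 0 ≤ 4 * (n : ℝ) ^ 2 * ((n : ℝ) + 1) ^ 2 + 2 * n * ((n : ℝ) + 1) ^ 2 := by positivity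
    linarith
  have hA0 : 0 < A := by linarith
  have hB0 : 0 < B := by linarith
  have hM0 : 0 < cM n := by linarith
  obtain ⟨C1, hC1⟩ : ∃ C1 : ℝ, C1 = 12 * cM n ^ 3 * A ^ 3 := ⟨_, rfl⟩
  have hC10 : 0 ≤ C1 := by rw [hC1]; positivity
  refine ⟨16 * C1 + 1 + 6 * cM n * A ^ 2, ?_, ?_⟩
  · have : 0 ≤ 6 * cM n * A ^ 2 := by positivity
    linarith
  obtain ⟨K, hK⟩ : ∃ K : ℝ, K = 16 * C1 + 1 + 6 * cM n * A ^ 2 := ⟨_, rfl⟩
  rw [← hK]
  have hK1 : 1 ≤ K := by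
    have : 0 ≤ 6 * cM n * A ^ 2 := by positivity
    linarith
  have hKC : 16 * C1 < K := by
    have : 0 ≤ 6 * cM n * A ^ 2 := by positivity
    linarith
  have hKA : 6 * cM n * A ^ 2 ≤ K := by linarith
  have hK0 : 0 < K := by linarith
  intro e H X hH ht hb hG hX x y hxy hd hz
  have hH1 : (1 : ℝ) ≤ H := hB.trans hH
  have hH0 : (0 : ℝ) < H := by linarith
  have hX1 : 1 ≤ X := by nlinarith
  have hX0 : 0 < X := by linarith
  have hHX : (H : ℝ) ≤ X := by nlinarith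
  obtain ⟨q, hq⟩ : ∃ q : ℝ, q = B / H := ⟨_, rfl⟩
  have hq0 : 0 < q := by rw [hq]; positivity
  have hq1 : q ≤ 1 := by rw [hq, div_le_one hH0]; exact hH
  have hqH : q * H = B := by rw [hq]; field_simp
  -- the coefficients
  have hbs : ∀ k ≤ n, ∀ j ≤ n, |bs n e q k j| ≤ B := by
    intro k _ j _
    unfold bs bb
    split_ifs with h
    · rcases Nat.eq_zero_or_pos k with rfl | hk
      · rw [pow_zero, mul_one, Nat.sub_zero]
        exact ht j (by omega)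
      · have h1 : |(e (n - k - j) j : ℝ)| ≤ H := by
          have := hb (n - k - j) j (by omega)
          exact_mod_cast this
        rw [abs_mul, abs_pow, abs_of_pos hq0]
        have h2 : q ^ k ≤ q := pow_le_of_le_one hq0.le hq1 (by omega)
        calc |(e (n - k - j) j : ℝ)| * q ^ k ≤ H * q := by gcongr
          _ = B := by rw [mul_comm, hqH]
    · rw [zero_mul, abs_zero]
      exact hB0.le
  obtain ⟨X', hX'⟩ : ∃ X' : ℝ, X' = q * X := ⟨_, rfl⟩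
  have hX'0 : 0 < X' := by rw [hX']; positivity
  have hX'K : 6 * cM n * A ^ 2 ≤ X' := by
    calc 6 * cM n * A ^ 2 ≤ K := hKA
      _ ≤ K * B := by nlinarith
      _ = q * (K * H) := by rw [← hqH]; ring
      _ ≤ X' := by rw [hX']; gcongr
  obtain ⟨ε, hε⟩ : ∃ ε : ℝ, ε = 1 / q * (1 / X ^ n) := ⟨_, rfl⟩
  have hε0 : 0 ≤ ε := by rw [hε]; positivity
  have hεX : ε ≤ 1 / X' ^ 3 := by
    rw [hε, hX', mul_pow]
    have h1 : 1 / X ^ n ≤ 1 / X ^ 3 := one_div_le_one_div_of_le (by positivity) (pow_le_pow_right₀ hX1 hn)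
    have h2 : 1 / q ≤ 1 / q ^ 3 := one_div_le_one_div_of_le (by positivity) (pow_le_of_le_one hq0.le hq1 (by norm_num))
    calc 1 / q * (1 / X ^ n) ≤ 1 / q ^ 3 * (1 / X ^ 3) := by gcongr
      _ = _ := by field_simp
  have ne : ∀ i, (x i : ℝ) ≠ 0 := by
    intro i h
    have := (hxy i).1
    rw [h, abs_zero] at this
    linarith
  have nez : ∀ i, x i ≠ 0 := fun i h => ne i (by rw [h]; simp)
  have small : ∀ i, |Ph n (bs n e q) (1 / (x i : ℝ) / q) ((y i : ℝ) / x i)| ≤ B * ε := by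
    intro i
    rw [Ph_bs n e hq0.ne', Ph_bb]
    have h1 := ev_eq n e (x i) (y i) (nez i)
    have h2 : |(ev n e (x i) (y i) : ℝ)| ≤ H := by exact_mod_cast (hxy i).2.2.2
    rw [h1, abs_mul, abs_pow] at h2
    have h3 : X ^ n ≤ |(x i : ℝ)| ^ n := pow_le_pow_left₀ hX0.le (hxy i).1 n
    obtain ⟨S, hS⟩ : ∃ S : ℝ, S = |∑ k ∈ Finset.range (n + 1), (1 / (x i : ℝ)) ^ (n - k) *
      aeval ((y i : ℝ) / x i) (fm e k)| := ⟨_, rfl⟩
    rw [← hS] at h2 ⊢
    have hS0 : 0 ≤ S := by rw [hS]; exact abs_nonneg _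
    have h4 : S * X ^ n ≤ H := by
      calc S * X ^ n ≤ S * |(x i : ℝ)| ^ n := by gcongr
        _ = |(x i : ℝ)| ^ n * S := mul_comm _ _
        _ ≤ H := h2
    have h5 : B * ε = H * (1 / X ^ n) := by
      rw [hε, ← hqH]
      field_simp
    rw [h5, mul_one_div, le_div_iff₀ (by positivity)]
    exact h4
  have ub : ∀ i, |1 / (x i : ℝ) / q| ≤ 1 / X' := by
    intro i
    rw [abs_div, abs_div, abs_one, abs_of_pos hq0, hX', div_div]
    apply one_div_le_one_div_of_le (by positivity)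
    rw [mul_comm]
    exact mul_le_mul_of_nonneg_right (hxy i).1 hq0.le
  have tb : ∀ i, |(y i : ℝ) / x i| ≤ 1 := by
    intro i
    have h1 : 0 < |(x i : ℝ)| := lt_of_lt_of_le hX0 (hxy i).1
    rw [abs_div, div_le_one h1]
    have := (hxy i).2.2.1
    exact_mod_cast this
  obtain ⟨D, hD⟩ : ∃ D : ℝ, D = K * (H : ℝ) ^ (2 / 3 : ℝ) := ⟨_, rfl⟩
  rw [← hD] at hd
  have hH23 : 1 ≤ (H : ℝ) ^ (2 / 3 : ℝ) := Real.one_le_rpow hH1 (by norm_num)
  have hDK : K ≤ D := by rw [hD]; nlinarith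
  have hD0 : 0 < D := by linarith
  obtain ⟨δ, hδ⟩ : ∃ δ : ℝ, δ = 1 / (D * X) / q := ⟨_, rfl⟩
  have hδ0 : 0 ≤ δ := by rw [hδ]; positivity
  have dif : ∀ i, |1 / (x i : ℝ) / q - 1 / (x 0 : ℝ) / q| ≤ δ := by
    intro i
    have h1 := inv_diff hX0 (hxy i).1 (hxy 0).1 (hd i 0)
    rw [← sub_div, abs_div, abs_of_pos hq0, hδ]
    gcongr
  have h := three' n hB0 hA hbs hX'K hεX (ub 0) (ub 1) (ub 2) (tb 0) (tb 1) (tb 2)
    (small 0) (small 1) (small 2) hδ0 (dif 1) (dif 2)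
    (fun t ht' => by rw [Ph_zero, Pht_zero]; exact hG t ht')
    (fun z hz' => by rw [Pht_zero]; exact hz 0 1 z hz')
    (fun z hz' => by rw [Pht_zero]; exact hz 0 2 z hz')
  rw [← hC1] at h
  have hdet := det_eq (y1 := (y 0 : ℝ)) (y2 := y 1) (y3 := y 2) (ne 0) (ne 1) (ne 2)
  have hlt : |(((x 1 - x 0) * (y 2 - y 0) - (x 2 - x 0) * (y 1 - y 0) : ℤ) : ℝ)| < 1 := by
    push_cast
    rw [hdet]
    have e1 : (1 / (x 1 : ℝ) - 1 / x 0) * ((y 2 : ℝ) / x 2 - y 0 / x 0) -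
        (1 / (x 2 : ℝ) - 1 / x 0) * ((y 1 : ℝ) / x 1 - y 0 / x 0) =
        q * ((1 / (x 1 : ℝ) / q - 1 / x 0 / q) * ((y 2 : ℝ) / x 2 - y 0 / x 0) -
        (1 / (x 2 : ℝ) / q - 1 / x 0 / q) * ((y 1 : ℝ) / x 1 - y 0 / x 0)) := by
      field_simp
    rw [e1, abs_mul, abs_neg, abs_mul, abs_mul, abs_mul, abs_of_pos hq0]
    have e2 : |(x 0 : ℝ)| * |(x 1 : ℝ)| * |(x 2 : ℝ)| ≤ 2 * X * (2 * X) * (2 * X) := by
      have a0 := (hxy 0).2.1
      have a1 := (hxy 1).2.1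
      have a2 := (hxy 2).2.1
      gcongr
    have e3 : |(x 0 : ℝ)| * |(x 1 : ℝ)| * |(x 2 : ℝ)| * (q * |(1 / (x 1 : ℝ) / q - 1 / x 0 / q) *
        ((y 2 : ℝ) / x 2 - y 0 / x 0) - (1 / (x 2 : ℝ) / q - 1 / x 0 / q) * ((y 1 : ℝ) / x 1 - y 0 / x 0)|) ≤
        2 * X * (2 * X) * (2 * X) * (q * (C1 * (δ * (ε + δ ^ 2)))) := by
      gcongr
    refine lt_of_le_of_lt e3 ?_
    -- numbers
    have f1 : 2 * X * (2 * X) * (2 * X) * (q * (C1 * (δ * (ε + δ ^ 2)))) =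
        8 * C1 * (X ^ 2 / D * (1 / q * (1 / X ^ n)) + 1 / (q ^ 2 * D ^ 3)) := by
      rw [hδ, hε]
      field_simp
      ring
    rw [f1]
    have hqi : 1 / q ≤ H := by
      rw [hq, one_div_div, div_le_iff₀ hB0]
      nlinarith
    have f2 : X ^ 2 / D * (1 / q * (1 / X ^ n)) ≤ 1 / K := by
      have g1 : 1 / X ^ n ≤ 1 / X ^ 3 := one_div_le_one_div_of_le (by positivity) (pow_le_pow_right₀ hX1 hn)
      calc X ^ 2 / D * (1 / q * (1 / X ^ n)) ≤ X ^ 2 / K * (X * (1 / X ^ 3)) := by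
            have g2 : X ^ 2 / D ≤ X ^ 2 / K := by gcongr
            have g3 : 1 / q ≤ X := hqi.trans hHX
            gcongr
        _ = 1 / K := by field_simp
    have f3 : 1 / (q ^ 2 * D ^ 3) ≤ 1 / K := by
      have g1 : D ^ 3 = K ^ 3 * (H : ℝ) ^ 2 := by
        rw [hD, mul_pow]
        congr 1
        rw [← Real.rpow_natCast, ← Real.rpow_mul hH0.le, ← Real.rpow_natCast]
        norm_num
      rw [g1]
      have g2 : q ^ 2 * (K ^ 3 * (H : ℝ) ^ 2) = (q * H) ^ 2 * K ^ 3 := by ring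
      rw [g2, hqH]
      apply one_div_le_one_div_of_le hK0
      have g3 : 1 ≤ B ^ 2 := one_le_pow₀ hB
      have g4 : K ≤ K ^ 3 := le_self_pow₀ hK1 (by norm_num)
      have g5 : 0 ≤ K ^ 3 := by positivity
      nlinarith
    calc 8 * C1 * (X ^ 2 / D * (1 / q * (1 / X ^ n)) + 1 / (q ^ 2 * D ^ 3)) ≤ 8 * C1 * (1 / K + 1 / K) := by
          gcongr
      _ = 16 * C1 / K := by ring
      _ < 1 := by rw [div_lt_one hK0]; exact hKC
  rw [← Int.cast_abs] at hlt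
  have h3 : |(x 1 - x 0) * (y 2 - y 0) - (x 2 - x 0) * (y 1 - y 0)| < 1 := by exact_mod_cast hlt
  have h4 := Int.abs_lt_one_iff.1 h3
  linarith

end Pool.Agent.H82.AF
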